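import Pool.Agent.Helper37.CB.Ord

/-!
MP_957450_co: segment graphs, tokens and comparisons.
-/

set_option autoImplicit false

namespace Pool.Agent.Helper37.CB

theorem base (n : ℕ) (hn : 1 ≤ n) :
    ∃ (G : SimpleGraph (Fin n)) (p q : Fin n → ℝ × ℝ), (∀ v, p v ≠ q v) ∧
      (∀ v w : Fin n, v ≠ w →
        (G.Adj v w ↔ (segment ℝ (p v) (q v) ∩ segment ℝ (p w) (q w)).Nonempty)) ∧
      ∀ (k l : ℕ), 1 ≤ l → Plain G k l →
        n ≤ (18 * 2 ^ k * l * (Nat.log 2 n + 1 + k).choose k) ^ 3 ∧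
        Real.log n ≤ 16 * (k + 1) + 5 * Real.log l := by
  classical
  by_cases h3 : n < 3
  · refine ⟨gr 1 n, fun v => pp 1 v, fun v => qq 1 v, fun v => pp_ne_qq 1 v one_pos,
      fun v w hvw => ⟨fun h => h.2, fun h => ⟨hvw, h⟩⟩, ?_⟩
    intro k l hl _
    constructor
    · have h1 : 1 ≤ 2 ^ k := Nat.one_le_two_pow
      have h2 : 1 ≤ (Nat.log 2 n + 1 + k).choose k := Nat.choose_pos (by omega)
      have h4 : 2 ≤ 18 * 2 ^ k * l * (Nat.log 2 n + 1 + k).choose k := by
        calc 2 ≤ 18 * 1 * 1 * 1 := by norm_num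
          _ ≤ 18 * 2 ^ k * l * (Nat.log 2 n + 1 + k).choose k := by gcongr
      calc n ≤ 2 ^ 3 := by omega
        _ ≤ _ := Nat.pow_le_pow_left h4 3
    · have h1 : Real.log n ≤ Real.log 2 := by
        apply Real.log_le_log
        · exact_mod_cast hn
        · exact_mod_cast (by omega : n ≤ 2)
      have h2 := Real.log_two_lt_d9
      have hk : (0 : ℝ) ≤ k := Nat.cast_nonneg _
      have hl' : 0 ≤ Real.log (l : ℝ) := Real.log_nonneg (by exact_mod_cast hl)
      linarith
  · set j := Nat.log 8 (n / 3) with hj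
    have hn3 : n / 3 ≠ 0 := by omega
    have h8 : 8 ^ j ≤ n / 3 := Nat.pow_log_le_self 8 hn3
    have h9 : n / 3 < 8 ^ (j + 1) := Nat.lt_pow_succ_log_self (by norm_num) _
    have hs : 0 < 2 ^ j := by positivity
    have hs3 : (2 ^ j) ^ 3 = 8 ^ j := by
      rw [← pow_mul, mul_comm, pow_mul]
      norm_num
    have hsn : 3 * (2 ^ j) ^ 3 ≤ n := by
      rw [hs3]
      omega
    have hn24 : n ≤ 24 * (2 ^ j) ^ 3 := by
      rw [hs3]
      rw [pow_succ] at h9
      omega
    have hnj : n ≤ 2 ^ (3 * j + 5) := by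
      have e1 : 2 ^ (3 * j + 5) = 4 * 8 ^ (j + 1) := by
        rw [show 3 * j + 5 = 2 + 3 * (j + 1) by ring, pow_add, pow_mul]
        norm_num
      rw [e1]
      omega
    have hjl : 3 * j + 2 ≤ Nat.log 2 n + 1 := by
      have e1 : 2 ^ (3 * j + 1) ≤ n := by
        rw [pow_add, pow_mul]
        norm_num
        omega
      have e2 : 3 * j + 1 ≤ Nat.log 2 n := Nat.le_log_of_pow_le (by norm_num) e1
      omega
    refine ⟨gr (2 ^ j) n, fun v => pp (2 ^ j) v, fun v => qq (2 ^ j) v,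
      fun v => pp_ne_qq (2 ^ j) v hs, fun v w hvw => ⟨fun h => h.2, fun h => ⟨hvw, h⟩⟩, ?_⟩
    rintro k l hl ⟨T, S, S', Ω, hΩ, f, g, B, hS, hS', hB⟩
    have hd := disj (2 ^ j) n
    have hc : (PP (2 ^ j) n).card + (LL (2 ^ j) n).card ≤ 2 ^ (3 * j + 2) := by
      refine (card_PL (2 ^ j) n).trans ?_
      rw [hs3, pow_add, pow_mul]
      norm_num
      omega
    have ht := tok k (3 * j + 2) l (PP (2 ^ j) n) (LL (2 ^ j) n) hd hc (RR (2 ^ j) n)
      (Finset.filter_subset _ _) (noK _ _ hs) T S S' hS hS' Ω f g B (by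
        intro v hv w hw
        have hvw : v ≠ w := fun h => Finset.disjoint_left.1 hd hv (h ▸ hw)
        rw [← hB v w hvw]
        unfold RR
        rw [Finset.mem_filter, Finset.mem_product]
        exact ⟨fun h => h.2, fun h => ⟨⟨hv, hw⟩, h⟩⟩)
    have hm := many (2 ^ j) n hs hsn
    have key : 2 ^ j ≤ 6 * 2 ^ k * l * (3 * j + 2 + k).choose k := by
      have e1 : 2 ^ j * (2 ^ j) ^ 3 ≤
          (6 * 2 ^ k * l * (3 * j + 2 + k).choose k) * (2 ^ j) ^ 3 := by
        calc 2 ^ j * (2 ^ j) ^ 3 = (2 ^ j) ^ 4 := by ring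
          _ ≤ _ := hm.trans ht
          _ ≤ l * (3 * (2 ^ j) ^ 3) * (2 * 2 ^ k * (3 * j + 2 + k).choose k) := by
              have := card_PL (2 ^ j) n
              gcongr
          _ = _ := by ring
      exact Nat.le_of_mul_le_mul_right e1 (by positivity)
    constructor
    · calc n ≤ 24 * (2 ^ j) ^ 3 := hn24
        _ ≤ 3 ^ 3 * (6 * 2 ^ k * l * (3 * j + 2 + k).choose k) ^ 3 :=
            Nat.mul_le_mul (by norm_num) (Nat.pow_le_pow_left key 3)
        _ = (18 * 2 ^ k * l * (3 * j + 2 + k).choose k) ^ 3 := by ring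
        _ ≤ _ := by
            gcongr
    · have hnum := numbers' j k l hl key
      have hlog : Real.log n ≤ (3 * (j : ℝ) + 5) * Real.log 2 := by
        have h1 : Real.log n ≤ Real.log ((2 : ℝ) ^ (3 * j + 5)) := by
          apply Real.log_le_log
          · exact_mod_cast hn
          · exact_mod_cast hnj
        rw [Real.log_pow] at h1
        push_cast at h1
        exact h1
      exact hlog.trans hnum

end Pool.Agent.Helper37.CB
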