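import Pool.Agent.Helper37.CB.Dom

/-!
MP_957450_co: Boolean combinations of `k` comparisons without `K_{2,2}` have few pairs.
-/

set_option autoImplicit false

namespace Pool.Agent.Helper37.CB

open Finset

variable {V : Type} [Fintype V]

/-- ranks: a function to a linear order is replaced by an injective function to `ℕ` -/
theorem exists_rank {Ω : Type} [LinearOrder Ω] (key : V → Ω) :
    ∃ ρ : V → ℕ, Function.Injective ρ ∧ ∀ v w, key v ≠ key w → (ρ v < ρ w ↔ key v < key w) := by
  classical
  set e := Fintype.equivFin V with he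
  set a : V → Ω ×ₗ Fin (Fintype.card V) := fun x => toLex (key x, e x) with ha
  have hinj : Function.Injective a := by
    intro x y h
    have h1 := congrArg (fun z => (ofLex z).2) h
    exact e.injective h1
  set ρ : V → ℕ := fun x => (univ.filter fun y => a y < a x).card with hρ
  have hmono : ∀ x y, a x < a y → ρ x < ρ y := by
    intro x y hxy
    apply card_lt_card
    rw [ssubset_iff_of_subset]
    · exact ⟨x, by simpa using hxy, by simp⟩
    · intro z hz
      simp only [mem_filter, mem_univ, true_and] at hz ⊢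
      exact hz.trans hxy
  refine ⟨ρ, ?_, ?_⟩
  · intro x y hxy
    by_contra hne
    rcases lt_or_gt_of_ne (fun h => hne (hinj h)) with h | h
    · exact absurd hxy (hmono x y h).ne
    · exact absurd hxy (hmono y x h).ne'
  · intro v w hne
    constructor
    · intro h
      by_contra h2
      have h3 : key w < key v := lt_of_le_of_ne (not_lt.1 h2) hne.symm
      have h4 : a w < a v := by
        rw [ha, Prod.Lex.toLex_lt_toLex]
        exact Or.inl h3
      exact absurd (hmono w v h4) (not_lt.2 h.le)
    · intro h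
      apply hmono
      rw [ha, Prod.Lex.toLex_lt_toLex]
      exact Or.inl h

/-- a comparison (or its negation) between `P` and `L` is a comparison of ranks -/
theorem exists_rank_cmp {Ω : Type} [LinearOrder Ω] (P L : Finset V) (hPL : Disjoint P L)
    (f g : V → Ω) (b : Prop) :
    ∃ ρ : V → ℕ, Function.Injective ρ ∧
      ∀ v ∈ P, ∀ w ∈ L, (ρ v < ρ w ↔ ((f v ≤ g w) ↔ b)) := by
  classical
  have hd : ∀ v ∈ P, ∀ w ∈ L, w ∉ P := fun v _ w hw hw2 => (disjoint_left.1 hPL hw2) hw
  by_cases hb : b
  · obtain ⟨ρ, h1, h2⟩ := exists_rank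
      (fun x => if x ∈ P then (toLex (f x, 0) : Ω ×ₗ ℕ) else toLex (g x, 1))
    refine ⟨ρ, h1, fun v hv w hw => ?_⟩
    have hw2 := hd v hv w hw
    have h3 := h2 v w (by
      simp only [hv, hw2, if_true, if_false]
      intro h
      have := congrArg (fun z => (ofLex z).2) h
      simp at this)
    rw [h3]
    simp only [hv, hw2, if_true, if_false, Prod.Lex.toLex_lt_toLex, hb, iff_true]
    constructor
    · rintro (h | h)
      · exact h.le
      · exact h.1.le
    · intro h
      rcases lt_or_eq_of_le h with h | h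
      · exact Or.inl h
      · exact Or.inr ⟨h, by norm_num⟩
  · obtain ⟨ρ, h1, h2⟩ := exists_rank
      (fun x => if x ∈ P then (toLex (OrderDual.toDual (f x), 1) : Ωᵒᵈ ×ₗ ℕ)
        else toLex (OrderDual.toDual (g x), 0))
    refine ⟨ρ, h1, fun v hv w hw => ?_⟩
    have hw2 := hd v hv w hw
    have h3 := h2 v w (by
      simp only [hv, hw2, if_true, if_false]
      intro h
      have := congrArg (fun z => (ofLex z).2) h
      simp at this)
    rw [h3]
    simp only [hv, hw2, if_true, if_false, Prod.Lex.toLex_lt_toLex, hb, iff_false, not_le,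
      OrderDual.toDual_lt_toDual]
    constructor
    · rintro (h | h)
      · exact h
      · exact absurd h.2 (by norm_num)
    · intro h
      exact Or.inl h

open Classical in
/-- **Few pairs.** -/
theorem few (k m : ℕ) (P L : Finset V) (hPL : Disjoint P L) (hc : P.card + L.card ≤ 2 ^ m)
    (Ω : Fin k → Type) [∀ i, LinearOrder (Ω i)] (f g : ∀ i, V → Ω i) (B : (Fin k → Prop) → Prop)
    (hK : NoK22 ((P ×ˢ L).filter fun e => B fun i => f i e.1 ≤ g i e.2)) :
    ((P ×ˢ L).filter fun e => B fun i => f i e.1 ≤ g i e.2).card ≤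
      2 ^ k * (2 ^ m * (m + k).choose k) := by
  set R := (P ×ˢ L).filter fun e => B fun i => f i e.1 ≤ g i e.2 with hR
  -- the part of the truth vector `ε`
  set Q : (Fin k → Bool) → Finset (V × V) := fun ε =>
    R.filter fun e => ∀ i, (f i e.1 ≤ g i e.2 ↔ ε i = true) with hQ
  have hsub : R ⊆ univ.biUnion Q := by
    intro e he
    rw [mem_biUnion]
    refine ⟨fun i => decide (f i e.1 ≤ g i e.2), mem_univ _, ?_⟩
    simp only [hQ, mem_filter]
    exact ⟨he, fun i => by simp⟩
  have hpart : ∀ ε, (Q ε).card ≤ 2 ^ m * (m + k).choose k := by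
    intro ε
    have hρ : ∀ i : Fin k, ∃ ρ : V → ℕ, Function.Injective ρ ∧
        ∀ v ∈ P, ∀ w ∈ L, (ρ v < ρ w ↔ ((f i v ≤ g i w) ↔ ε i = true)) :=
      fun i => exists_rank_cmp P L hPL (f i) (g i) (ε i = true)
    choose ρ hρ1 hρ2 using hρ
    obtain ⟨ρ0, hρ0, -⟩ := exists_rank (V := V) (fun _ => (0 : ℕ))
    set σ : ℕ → V → ℕ := fun i => if h : i < k then ρ ⟨i, h⟩ else ρ0 with hσ
    have hσinj : ∀ i, Function.Injective (σ i) := by
      intro i
      simp only [hσ]
      split_ifs with h
      · exact hρ1 _
      · exact hρ0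
    have hdom : ∀ v ∈ P, ∀ w ∈ L, (Below σ k v w ↔ ∀ i, (f i v ≤ g i w ↔ ε i = true)) := by
      intro v hv w hw
      constructor
      · intro h i
        have h1 := h i.1 i.2
        simp only [hσ, i.2, dif_pos] at h1
        exact (hρ2 i v hv w hw).1 h1
      · intro h i hi
        simp only [hσ, hi, dif_pos]
        exact (hρ2 ⟨i, hi⟩ v hv w hw).2 (h ⟨i, hi⟩)
    by_cases hB : B fun i => ε i = true
    · have h1 : Q ε = dom σ k P L := by
        ext ⟨v, w⟩
        simp only [hQ, hR, dom, mem_filter, mem_product]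
        constructor
        · rintro ⟨⟨⟨hv, hw⟩, -⟩, h⟩
          exact ⟨⟨hv, hw⟩, (hdom v hv w hw).2 h⟩
        · rintro ⟨⟨hv, hw⟩, h⟩
          have h2 := (hdom v hv w hw).1 h
          refine ⟨⟨⟨hv, hw⟩, ?_⟩, h2⟩
          have h3 : (fun i => f i v ≤ g i w) = fun i => (ε i = true) := by
            funext i
            exact propext (h2 i)
          rw [h3]
          exact hB
      rw [h1]
      apply dom_card σ hσinj k m P L hPL hc
      rw [← h1]
      exact hK.mono (filter_subset _ _)
    · have h1 : Q ε = ∅ := by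
        rw [eq_empty_iff_forall_notMem]
        rintro ⟨v, w⟩ h
        simp only [hQ, hR, mem_filter] at h
        have h3 : (fun i => f i v ≤ g i w) = fun i => (ε i = true) := by
          funext i
          exact propext (h.2 i)
        apply hB
        rw [← h3]
        exact h.1.2
      rw [h1, card_empty]
      exact Nat.zero_le _
  calc R.card ≤ (univ.biUnion Q).card := card_le_card hsub
    _ ≤ ∑ ε : Fin k → Bool, (Q ε).card := card_biUnion_le
    _ ≤ ∑ _ε : Fin k → Bool, 2 ^ m * (m + k).choose k := sum_le_sum fun ε _ => hpart ε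
    _ = 2 ^ k * (2 ^ m * (m + k).choose k) := by
        rw [sum_const, card_univ, Fintype.card_fun, Fintype.card_fin, Fintype.card_bool, smul_eq_mul]

end Pool.Agent.Helper37.CB
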