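import Mathlib

/-!
MP_957450_co: the number of pairs of a dominance relation in `k` coordinates without `K_{2,2}`.
-/

set_option autoImplicit false

namespace Pool.Agent.Helper37.CB

open Finset

variable {V : Type}

/-- `v` is below `w` in the first `k` coordinates. -/
def Below (ρ : ℕ → V → ℕ) (k : ℕ) (v w : V) : Prop := ∀ i < k, ρ i v < ρ i w

open Classical in
/-- The pairs of `P × L` in the dominance relation. -/
noncomputable def dom (ρ : ℕ → V → ℕ) (k : ℕ) (P L : Finset V) : Finset (V × V) :=
  (P ×ˢ L).filter fun e => Below ρ k e.1 e.2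

/-- A set of pairs without `K_{2,2}`. -/
def NoK22 (R : Finset (V × V)) : Prop := ∀ v v' w w', v ≠ v' → w ≠ w' →
  ¬ ((v, w) ∈ R ∧ (v, w') ∈ R ∧ (v', w) ∈ R ∧ (v', w') ∈ R)

theorem NoK22.mono {R R' : Finset (V × V)} (h : R' ⊆ R) (hR : NoK22 R) : NoK22 R' := by
  rintro v v' w w' hv hw ⟨h1, h2, h3, h4⟩
  exact hR v v' w w' hv hw ⟨h h1, h h2, h h3, h h4⟩

theorem dom_mono {ρ : ℕ → V → ℕ} {k : ℕ} {P P' L L' : Finset V} (hP : P' ⊆ P) (hL : L' ⊆ L) :
    dom ρ k P' L' ⊆ dom ρ k P L := by
  classical
  intro e he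
  simp only [dom, mem_filter, mem_product] at he ⊢
  exact ⟨⟨hP he.1.1, hL he.1.2⟩, he.2⟩

/-- an injective function on a finset with more than `N` elements has a cut after `N` elements -/
theorem exists_cut (ρ : V → ℕ) (hρ : Function.Injective ρ) (S : Finset V) (N : ℕ) :
    ∃ t, (S.filter fun x => ρ x < t).card ≤ N ∧ (S.filter fun x => t ≤ ρ x).card + N ≤ max S.card N := by
  classical
  by_cases hS : S.card ≤ N
  · refine ⟨(S.sup ρ) + 1, (card_filter_le _ _).trans hS, ?_⟩
    have h : (S.filter fun x => S.sup ρ + 1 ≤ ρ x) = ∅ := by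
      rw [filter_eq_empty_iff]
      intro x hx h1
      have h2 : ρ x ≤ S.sup ρ := le_sup hx
      omega
    rw [h, card_empty, zero_add]
    exact le_max_right _ _
  · push Not at hS
    -- the largest `t` with at most `N` elements below
    have hex : ∃ t, N < (S.filter fun x => ρ x < t + 1).card := by
      refine ⟨S.sup ρ, ?_⟩
      have h : (S.filter fun x => ρ x < S.sup ρ + 1) = S := by
        rw [filter_eq_self]
        intro x hx
        have h2 : ρ x ≤ S.sup ρ := le_sup hx
        omega
      rw [h]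
      exact hS
    set t := Nat.find hex with ht
    have h1 : N < (S.filter fun x => ρ x < t + 1).card := Nat.find_spec hex
    have h2 : (S.filter fun x => ρ x < t).card ≤ N := by
      rcases Nat.eq_zero_or_pos t with h0 | h0
      · rw [h0]
        simp
      · have h3 := Nat.find_min hex (m := t - 1) (by omega)
        rw [not_lt] at h3
        have h4 : t - 1 + 1 = t := by omega
        rwa [h4] at h3
    refine ⟨t, h2, ?_⟩
    -- at most one element has the value `t`
    have h3 : (S.filter fun x => ρ x < t + 1).card ≤ (S.filter fun x => ρ x < t).card + 1 := by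
      have h4 : (S.filter fun x => ρ x < t + 1) ⊆
          (S.filter fun x => ρ x < t) ∪ (S.filter fun x => ρ x = t) := by
        intro x hx
        simp only [mem_filter, mem_union] at hx ⊢
        rcases Nat.lt_succ_iff_lt_or_eq.1 hx.2 with h5 | h5
        · exact Or.inl ⟨hx.1, h5⟩
        · exact Or.inr ⟨hx.1, h5⟩
      have h5 : (S.filter fun x => ρ x = t).card ≤ 1 := by
        rw [card_le_one]
        intro a ha b hb
        simp only [mem_filter] at ha hb
        exact hρ (ha.2.trans hb.2.symm)
      exact (card_le_card h4).trans ((card_union_le _ _).trans (by omega))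
    have h6 : (S.filter fun x => ρ x < t).card + (S.filter fun x => t ≤ ρ x).card = S.card := by
      have h7 := card_filter_add_card_filter_not (s := S) (fun x => ρ x < t)
      simp only [not_lt] at h7
      exact h7
    have h8 : max S.card N = S.card := max_eq_left hS.le
    rw [h8]
    omega

/-- the dominance lemma -/
theorem dom_card (ρ : ℕ → V → ℕ) (hρ : ∀ i, Function.Injective (ρ i)) :
    ∀ (k m : ℕ) (P L : Finset V), Disjoint P L → P.card + L.card ≤ 2 ^ m → NoK22 (dom ρ k P L) →
      (dom ρ k P L).card ≤ 2 ^ m * (m + k).choose k := by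
  classical
  intro k
  induction k with
  | zero =>
    intro m P L _ hc hK
    have h0 : dom ρ 0 P L = P ×ˢ L := by
      rw [dom, filter_eq_self]
      intro e _ i hi
      omega
    rw [h0] at hK ⊢
    rw [card_product, Nat.choose_zero_right, mul_one]
    have h1 : P.card ≤ 1 ∨ L.card ≤ 1 := by
      by_contra h
      push Not at h
      obtain ⟨h2, h3⟩ := h
      obtain ⟨v, hv, v', hv', hvv⟩ := one_lt_card.1 h2
      obtain ⟨w, hw, w', hw', hww⟩ := one_lt_card.1 h3
      exact hK v v' w w' hvv hww ⟨mem_product.2 ⟨hv, hw⟩, mem_product.2 ⟨hv, hw'⟩,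
        mem_product.2 ⟨hv', hw⟩, mem_product.2 ⟨hv', hw'⟩⟩
    rcases h1 with h1 | h1
    · calc P.card * L.card ≤ 1 * L.card := Nat.mul_le_mul_right _ h1
        _ ≤ 2 ^ m := by omega
    · calc P.card * L.card ≤ P.card * 1 := Nat.mul_le_mul_left _ h1
        _ ≤ 2 ^ m := by omega
  | succ k ihk =>
    intro m
    induction m with
    | zero =>
      intro P L _ hc _
      have h1 : P = ∅ ∨ L = ∅ := by
        by_contra h
        push Not at h
        have h2 := card_pos.2 h.1
        have h3 := card_pos.2 h.2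
        omega
      have h2 : dom ρ (k + 1) P L = ∅ := by
        rcases h1 with h1 | h1
        · simp [dom, h1]
        · simp [dom, h1]
      rw [h2, card_empty]
      exact Nat.zero_le _
    | succ m ihm =>
      intro P L hPL hc hK
      obtain ⟨t, ht1, ht2⟩ := exists_cut (ρ k) (hρ k) (P ∪ L) (2 ^ m)
      set P1 := P.filter fun x => ρ k x < t with hP1
      set P2 := P.filter fun x => t ≤ ρ k x with hP2
      set L1 := L.filter fun x => ρ k x < t with hL1
      set L2 := L.filter fun x => t ≤ ρ k x with hL2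
      have c1 : P1.card + L1.card ≤ 2 ^ m := by
        rw [← card_union_of_disjoint (disjoint_filter_filter hPL), ← filter_union]
        exact ht1
      have c2 : P2.card + L2.card ≤ 2 ^ m := by
        rw [← card_union_of_disjoint (disjoint_filter_filter hPL), ← filter_union]
        have h1 : (P ∪ L).card ≤ 2 ^ (m + 1) := by
          rw [card_union_of_disjoint hPL]
          exact hc
        have h2 : max (P ∪ L).card (2 ^ m) ≤ 2 ^ (m + 1) :=
          max_le h1 (Nat.pow_le_pow_right (by norm_num) (Nat.le_succ m))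
        have h3 : 2 ^ (m + 1) = 2 ^ m + 2 ^ m := by ring
        omega
      have c3 : P1.card + L2.card ≤ 2 ^ (m + 1) :=
        (Nat.add_le_add (card_filter_le _ _) (card_filter_le _ _)).trans hc
      have sub : dom ρ (k + 1) P L ⊆ dom ρ (k + 1) P1 L1 ∪ dom ρ (k + 1) P2 L2 ∪ dom ρ k P1 L2 := by
        rintro ⟨v, w⟩ he
        simp only [dom, mem_filter, mem_product, mem_union, hP1, hP2, hL1, hL2] at he ⊢
        obtain ⟨⟨hv, hw⟩, hB⟩ := he
        have hk : ρ k v < ρ k w := hB k (Nat.lt_succ_self k)
        rcases lt_or_ge (ρ k v) t with h1 | h1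
        · rcases lt_or_ge (ρ k w) t with h2 | h2
          · exact Or.inl (Or.inl ⟨⟨⟨hv, h1⟩, ⟨hw, h2⟩⟩, hB⟩)
          · exact Or.inr ⟨⟨⟨hv, h1⟩, ⟨hw, h2⟩⟩, fun i hi => hB i (Nat.lt_succ_of_lt hi)⟩
        · exact Or.inl (Or.inr ⟨⟨⟨hv, h1⟩, ⟨hw, h1.trans hk.le⟩⟩, hB⟩)
      have k1 : NoK22 (dom ρ (k + 1) P1 L1) :=
        hK.mono (dom_mono (filter_subset _ _) (filter_subset _ _))
      have k2 : NoK22 (dom ρ (k + 1) P2 L2) :=
        hK.mono (dom_mono (filter_subset _ _) (filter_subset _ _))
      have k3 : NoK22 (dom ρ k P1 L2) := by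
        refine hK.mono ?_
        rintro ⟨v, w⟩ he
        simp only [dom, mem_filter, mem_product, hP1, hL2] at he ⊢
        refine ⟨⟨he.1.1.1, he.1.2.1⟩, fun i hi => ?_⟩
        rcases Nat.lt_succ_iff_lt_or_eq.1 hi with h1 | h1
        · exact he.2 i h1
        · rw [h1]
          exact lt_of_lt_of_le he.1.1.2 he.1.2.2
      have b1 := ihm P1 L1 (disjoint_filter_filter hPL) c1 k1
      have b2 := ihm P2 L2 (disjoint_filter_filter hPL) c2 k2
      have b3 := ihk (m + 1) P1 L2 (disjoint_filter_filter hPL) c3 k3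
      have h4 : (m + 1 + (k + 1)).choose (k + 1) =
          (m + (k + 1)).choose (k + 1) + (m + 1 + k).choose k := by
        have h5 : m + 1 + (k + 1) = (m + 1 + k) + 1 := by ring
        have h6 : m + (k + 1) = m + 1 + k := by ring
        rw [h5, h6, Nat.choose_succ_succ, add_comm]
      calc (dom ρ (k + 1) P L).card ≤
            (dom ρ (k + 1) P1 L1 ∪ dom ρ (k + 1) P2 L2 ∪ dom ρ k P1 L2).card := card_le_card sub
        _ ≤ (dom ρ (k + 1) P1 L1).card + (dom ρ (k + 1) P2 L2).card + (dom ρ k P1 L2).card :=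
            (card_union_le _ _).trans (Nat.add_le_add_right (card_union_le _ _) _)
        _ ≤ 2 ^ m * (m + (k + 1)).choose (k + 1) + 2 ^ m * (m + (k + 1)).choose (k + 1) +
            2 ^ (m + 1) * (m + 1 + k).choose k := Nat.add_le_add (Nat.add_le_add b1 b2) b3
        _ = 2 ^ (m + 1) * (m + 1 + (k + 1)).choose (k + 1) := by
            rw [h4]
            ring

end Pool.Agent.Helper37.CB
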