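import Pool.Agent.Helper37.CB.Dec

/-!
MP_957450_co: points and segments with many incidences, and the numbers.
-/

set_option autoImplicit false

namespace Pool.Agent.Helper37.CB

open Finset

/-- the left end point of the segment of the vertex `v` -/
noncomputable def pp (s v : ℕ) : ℝ × ℝ :=
  if v < 2 * s ^ 3 then (((v % s : ℕ) : ℝ), ((v / s : ℕ) : ℝ))
  else if v < 3 * s ^ 3 then (0, (((v - 2 * s ^ 3) / s : ℕ) : ℝ)) else (-1, -1)

/-- the right end point of the segment of the vertex `v` -/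
noncomputable def qq (s v : ℕ) : ℝ × ℝ :=
  if v < 2 * s ^ 3 then (((v % s : ℕ) : ℝ) + 1 / (2 * s), ((v / s : ℕ) : ℝ))
  else if v < 3 * s ^ 3 then
    ((s : ℝ), (((v - 2 * s ^ 3) % s : ℕ) : ℝ) * s + (((v - 2 * s ^ 3) / s : ℕ) : ℝ)) else (-2, -1)

theorem pp_ne_qq (s v : ℕ) (hs : 0 < s) : pp s v ≠ qq s v := by
  have hs' : (0 : ℝ) < s := by exact_mod_cast hs
  intro h
  have h1 : (pp s v).1 = (qq s v).1 := congrArg Prod.fst h
  simp only [pp, qq] at h1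
  split_ifs at h1
  · have h2 : (0 : ℝ) < 1 / (2 * s) := by positivity
    simp only at h1
    linarith
  · simp only at h1
    linarith
  · norm_num at h1

/-- a point on a segment -/
theorem mem_seg (a b m c s : ℝ) (hs : 0 < s) (ha : 0 ≤ a) (has : a ≤ s) :
    ((a, b) : ℝ × ℝ) ∈ segment ℝ (0, c) (s, m * s + c) ↔ b = m * a + c := by
  constructor
  · rintro ⟨x, y, hx, hy, hxy, h⟩
    simp only [Prod.smul_mk, smul_eq_mul, Prod.mk_add_mk, mul_zero, zero_add, Prod.mk.injEq] at h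
    obtain ⟨h1, h2⟩ := h
    have h3 : x = 1 - y := by linarith
    rw [h3] at h2
    rw [← h2, ← h1]
    ring
  · intro h
    refine ⟨1 - a / s, a / s, ?_, by positivity, by ring, ?_⟩
    · have : a / s ≤ 1 := (div_le_one hs).2 has
      linarith
    · simp only [Prod.smul_mk, smul_eq_mul, Prod.mk_add_mk, mul_zero, zero_add, Prod.mk.injEq]
      have h1 : a / s * s = a := div_mul_cancel₀ a hs.ne'
      refine ⟨h1, ?_⟩
      rw [h]
      calc (1 - a / s) * c + a / s * (m * s + c) = c + m * (a / s * s) := by ring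
        _ = m * a + c := by rw [h1]; ring

/-- a short horizontal segment and a line -/
theorem short_iff (a b m c s : ℕ) (hs : 0 < s) (ha : a < s) (hm : m < s) :
    (segment ℝ ((a : ℝ), (b : ℝ)) ((a : ℝ) + 1 / (2 * s), (b : ℝ)) ∩
      segment ℝ (0, (c : ℝ)) ((s : ℝ), (m : ℝ) * s + c)).Nonempty ↔ b = m * a + c := by
  have hs' : (0 : ℝ) < s := by exact_mod_cast hs
  have hs1 : (1 : ℝ) ≤ s := by exact_mod_cast hs
  have ha' : (a : ℝ) + 1 ≤ s := by exact_mod_cast ha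
  have hm' : (m : ℝ) ≤ s := by exact_mod_cast hm.le
  have hε : (1 : ℝ) / (2 * s) ≤ 1 := by
    rw [div_le_one (by positivity)]
    linarith
  constructor
  · rintro ⟨z, ⟨x, y, hx, hy, hxy, h⟩, hz⟩
    have hz1 : z = ((a : ℝ) + y * (1 / (2 * s)), (b : ℝ)) := by
      rw [← h]
      simp only [Prod.smul_mk, smul_eq_mul, Prod.mk_add_mk, Prod.mk.injEq]
      constructor
      · calc x * (a : ℝ) + y * ((a : ℝ) + 1 / (2 * s)) = (x + y) * a + y * (1 / (2 * s)) := by ring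
          _ = a + y * (1 / (2 * s)) := by rw [hxy, one_mul]
      · rw [← add_mul, hxy, one_mul]
    have hy1 : y ≤ 1 := by linarith
    have hε0 : (0 : ℝ) ≤ 1 / (2 * s) := by positivity
    have h1 : y * (1 / (2 * s)) ≤ 1 := by nlinarith
    have h0 : 0 ≤ y * (1 / (2 * s)) := mul_nonneg hy hε0
    rw [hz1] at hz
    have h2 := (mem_seg _ _ _ _ _ hs' (by positivity) (by linarith)).1 hz
    -- `b = m (a + y ε) + c`, `0 ≤ m y ε < 1`
    have h3 : (m : ℝ) * (y * (1 / (2 * s))) < 1 := by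
      have h4 : (m : ℝ) * (1 / (2 * s)) ≤ 1 / 2 := by
        calc (m : ℝ) * (1 / (2 * s)) ≤ s * (1 / (2 * s)) := mul_le_mul_of_nonneg_right hm' hε0
          _ = 1 / 2 := by field_simp
      have h5 : (m : ℝ) * (y * (1 / (2 * s))) = y * ((m : ℝ) * (1 / (2 * s))) := by ring
      rw [h5]
      have h6 : (0 : ℝ) ≤ (m : ℝ) * (1 / (2 * s)) := by positivity
      nlinarith
    have h4 : (0 : ℝ) ≤ (m : ℝ) * (y * (1 / (2 * s))) := mul_nonneg (Nat.cast_nonneg _) h0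
    have h5 : ((m * a + c : ℕ) : ℝ) ≤ (b : ℝ) := by
      push_cast
      linarith
    have h6 : (b : ℝ) < ((m * a + c + 1 : ℕ) : ℝ) := by
      push_cast
      linarith
    have h7 : m * a + c ≤ b := by exact_mod_cast h5
    have h8 : b < m * a + c + 1 := by exact_mod_cast h6
    omega
  · intro h
    refine ⟨((a : ℝ), (b : ℝ)), left_mem_segment ℝ _ _, ?_⟩
    rw [mem_seg _ _ _ _ _ hs' (Nat.cast_nonneg _) (by linarith)]
    exact_mod_cast h

/-- adjacency of a point and a line -/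
theorem adj_iff (s v w : ℕ) (hs : 0 < s) (hv : v < 2 * s ^ 3) (hw : 2 * s ^ 3 ≤ w) (hw2 : w < 3 * s ^ 3) :
    (segment ℝ (pp s v) (qq s v) ∩ segment ℝ (pp s w) (qq s w)).Nonempty ↔
      v / s = (w - 2 * s ^ 3) % s * (v % s) + (w - 2 * s ^ 3) / s := by
  have hw1 : ¬ w < 2 * s ^ 3 := not_lt.2 hw
  simp only [pp, qq, hv, hw1, hw2, if_true, if_false]
  exact short_iff _ _ _ _ _ hs (Nat.mod_lt _ hs) (Nat.mod_lt _ hs)

open Classical in
/-- the graph -/
noncomputable def gr (s n : ℕ) : SimpleGraph (Fin n) where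
  Adj v w := v ≠ w ∧ (segment ℝ (pp s v) (qq s v) ∩ segment ℝ (pp s w) (qq s w)).Nonempty
  symm := ⟨fun v w h => ⟨h.1.symm, by rw [Set.inter_comm]; exact h.2⟩⟩
  loopless := ⟨fun v h => h.1 rfl⟩

/-- the points -/
def PP (s n : ℕ) : Finset (Fin n) := univ.filter fun v => v.1 < 2 * s ^ 3

/-- the lines -/
def LL (s n : ℕ) : Finset (Fin n) := univ.filter fun v => 2 * s ^ 3 ≤ v.1 ∧ v.1 < 3 * s ^ 3

theorem disj (s n : ℕ) : Disjoint (PP s n) (LL s n) := by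
  rw [disjoint_left]
  intro v hv hw
  simp only [PP, LL, mem_filter, mem_univ, true_and] at hv hw
  omega

theorem card_PL (s n : ℕ) : (PP s n).card + (LL s n).card ≤ 3 * s ^ 3 := by
  rw [← card_union_of_disjoint (disj s n)]
  have h1 : ((PP s n ∪ LL s n).map Fin.valEmbedding) ⊆ range (3 * s ^ 3) := by
    intro x hx
    simp only [mem_map, mem_union, PP, LL, mem_filter, mem_univ, true_and, mem_range] at hx ⊢
    obtain ⟨v, hv, rfl⟩ := hx
    simp only [Fin.valEmbedding_apply]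
    have : 2 * s ^ 3 ≤ 3 * s ^ 3 := Nat.mul_le_mul_right _ (by norm_num)
    omega
  have h2 := card_le_card h1
  rwa [card_map, card_range] at h2

open Classical in
/-- the incidences -/
noncomputable def RR (s n : ℕ) : Finset (Fin n × Fin n) :=
  (PP s n ×ˢ LL s n).filter fun e => (gr s n).Adj e.1 e.2

theorem mem_RR {s n : ℕ} (hs : 0 < s) {v w : Fin n} : (v, w) ∈ RR s n ↔
    v.1 < 2 * s ^ 3 ∧ (2 * s ^ 3 ≤ w.1 ∧ w.1 < 3 * s ^ 3) ∧
      v.1 / s = (w.1 - 2 * s ^ 3) % s * (v.1 % s) + (w.1 - 2 * s ^ 3) / s := by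
  classical
  unfold RR
  rw [mem_filter, mem_product, PP, LL, mem_filter, mem_filter]
  constructor
  · rintro ⟨⟨⟨-, h1⟩, ⟨-, h2⟩⟩, -, h3⟩
    exact ⟨h1, h2, (adj_iff s v w hs h1 h2.1 h2.2).1 h3⟩
  · rintro ⟨h1, h2, h3⟩
    refine ⟨⟨⟨mem_univ _, h1⟩, ⟨mem_univ _, h2⟩⟩, fun h => ?_, (adj_iff s v w hs h1 h2.1 h2.2).2 h3⟩
    have h4 : v.1 = w.1 := congrArg Fin.val h
    omega

theorem noK (s n : ℕ) (hs : 0 < s) : NoK22 (RR s n) := by
  rintro v v' w w' hv hw ⟨h1, h2, h3, h4⟩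
  rw [mem_RR hs] at h1 h2 h3 h4
  obtain ⟨-, ⟨a1, a2⟩, e1⟩ := h1
  obtain ⟨-, ⟨b1, b2⟩, e2⟩ := h2
  obtain ⟨-, -, e3⟩ := h3
  obtain ⟨-, -, e4⟩ := h4
  set a := v.1 % s with ha
  set b := v.1 / s with hb
  set a' := v'.1 % s with ha'
  set b' := v'.1 / s with hb'
  set m := (w.1 - 2 * s ^ 3) % s with hm
  set c := (w.1 - 2 * s ^ 3) / s with hc
  set m' := (w'.1 - 2 * s ^ 3) % s with hm'
  set c' := (w'.1 - 2 * s ^ 3) / s with hc'
  have hvab : v.1 = s * b + a := (Nat.div_add_mod v.1 s).symm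
  have hvab' : v'.1 = s * b' + a' := (Nat.div_add_mod v'.1 s).symm
  have hwmc : w.1 - 2 * s ^ 3 = s * c + m := (Nat.div_add_mod _ s).symm
  have hwmc' : w'.1 - 2 * s ^ 3 = s * c' + m' := (Nat.div_add_mod _ s).symm
  have f1 : (b : ℤ) = m * a + c := by exact_mod_cast e1
  have f2 : (b : ℤ) = m' * a + c' := by exact_mod_cast e2
  have f3 : (b' : ℤ) = m * a' + c := by exact_mod_cast e3
  have f4 : (b' : ℤ) = m' * a' + c' := by exact_mod_cast e4
  have key : ((m : ℤ) - m') * ((a : ℤ) - a') = 0 := by linear_combination (-1 : ℤ) * f1 + f2 + f3 - f4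
  rcases mul_eq_zero.1 key with h | h
  · have hmm : (m : ℤ) = m' := by linarith
    have hcc : (c : ℤ) = c' := by
      rw [hmm] at f1
      linarith
    have hmm2 : m = m' := by exact_mod_cast hmm
    have hcc2 : c = c' := by exact_mod_cast hcc
    apply hw
    apply Fin.ext
    rw [← hmm2, ← hcc2, ← hwmc] at hwmc'
    omega
  · have haa : (a : ℤ) = a' := by linarith
    have hbb : (b : ℤ) = b' := by
      rw [haa] at f1
      linarith
    have haa2 : a = a' := by exact_mod_cast haa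
    have hbb2 : b = b' := by exact_mod_cast hbb
    apply hv
    apply Fin.ext
    rw [hvab, hvab', haa2, hbb2]

theorem many (s n : ℕ) (hs : 0 < s) (hn : 3 * s ^ 3 ≤ n) : s ^ 4 ≤ (RR s n).card := by
  classical
  -- line `(m, c)`, point `(a, m a + c)`
  have hv : ∀ x : Fin s × Fin (s ^ 2) × Fin s,
      x.2.2.1 + s * (x.1.1 * x.2.2.1 + x.2.1.1) < 2 * s ^ 3 := by
    rintro ⟨m, c, a⟩
    have hm : m.1 + 1 ≤ s := m.2
    have ha : a.1 + 1 ≤ s := a.2
    have hc : c.1 + 1 ≤ s ^ 2 := c.2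
    have h1 : m.1 * a.1 ≤ s * s := Nat.mul_le_mul (by omega) (by omega)
    have h2 : m.1 * a.1 + c.1 + 1 ≤ 2 * s ^ 2 := by nlinarith
    have h3 : s * (m.1 * a.1 + c.1 + 1) ≤ s * (2 * s ^ 2) := Nat.mul_le_mul_left _ h2
    have h4 : s * (2 * s ^ 2) = 2 * s ^ 3 := by ring
    have h5 : s * (m.1 * a.1 + c.1 + 1) = s * (m.1 * a.1 + c.1) + s := by ring
    show a.1 + s * (m.1 * a.1 + c.1) < 2 * s ^ 3
    omega
  have hw : ∀ x : Fin s × Fin (s ^ 2) × Fin s,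
      2 * s ^ 3 + (x.1.1 + s * x.2.1.1) < 3 * s ^ 3 := by
    rintro ⟨m, c, a⟩
    have hm : m.1 + 1 ≤ s := m.2
    have hc : c.1 + 1 ≤ s ^ 2 := c.2
    have h3 : s * (c.1 + 1) ≤ s * s ^ 2 := Nat.mul_le_mul_left _ hc
    have h4 : s * s ^ 2 = s ^ 3 := by ring
    have h5 : s * (c.1 + 1) = s * c.1 + s := by ring
    show 2 * s ^ 3 + (m.1 + s * c.1) < 3 * s ^ 3
    omega
  have h23 : 2 * s ^ 3 ≤ 3 * s ^ 3 := Nat.mul_le_mul_right _ (by norm_num)
  set F : Fin s × Fin (s ^ 2) × Fin s → Fin n × Fin n := fun x =>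
    (⟨_, ((hv x).trans_le h23).trans_le hn⟩, ⟨_, (hw x).trans_le hn⟩) with hF
  have hmod : ∀ x : Fin s × Fin (s ^ 2) × Fin s,
      (x.2.2.1 + s * (x.1.1 * x.2.2.1 + x.2.1.1)) % s = x.2.2.1 ∧
      (x.2.2.1 + s * (x.1.1 * x.2.2.1 + x.2.1.1)) / s = x.1.1 * x.2.2.1 + x.2.1.1 ∧
      (x.1.1 + s * x.2.1.1) % s = x.1.1 ∧ (x.1.1 + s * x.2.1.1) / s = x.2.1.1 := by
    intro x
    refine ⟨?_, ?_, ?_, ?_⟩
    · rw [Nat.add_mul_mod_self_left, Nat.mod_eq_of_lt x.2.2.2]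
    · rw [Nat.add_mul_div_left _ _ hs, Nat.div_eq_of_lt x.2.2.2, zero_add]
    · rw [Nat.add_mul_mod_self_left, Nat.mod_eq_of_lt x.1.2]
    · rw [Nat.add_mul_div_left _ _ hs, Nat.div_eq_of_lt x.1.2, zero_add]
  have hinj : Function.Injective F := by
    intro x y h
    have h1 : x.2.2.1 + s * (x.1.1 * x.2.2.1 + x.2.1.1) = y.2.2.1 + s * (y.1.1 * y.2.2.1 + y.2.1.1) :=
      congrArg (fun z : Fin n × Fin n => z.1.1) h
    have h2 : 2 * s ^ 3 + (x.1.1 + s * x.2.1.1) = 2 * s ^ 3 + (y.1.1 + s * y.2.1.1) :=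
      congrArg (fun z : Fin n × Fin n => z.2.1) h
    have h3 : x.1.1 + s * x.2.1.1 = y.1.1 + s * y.2.1.1 := by omega
    obtain ⟨a1, -, a3, a4⟩ := hmod x
    obtain ⟨b1, -, b3, b4⟩ := hmod y
    have c1 : x.2.2.1 = y.2.2.1 := by rw [← a1, ← b1, h1]
    have c2 : x.1.1 = y.1.1 := by rw [← a3, ← b3, h3]
    have c3 : x.2.1.1 = y.2.1.1 := by rw [← a4, ← b4, h3]
    exact Prod.ext (Fin.ext c2) (Prod.ext (Fin.ext c3) (Fin.ext c1))
  have hsub : univ.image F ⊆ RR s n := by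
    intro e he
    obtain ⟨x, -, rfl⟩ := mem_image.1 he
    obtain ⟨a1, a2, a3, a4⟩ := hmod x
    rw [hF, mem_RR hs]
    refine ⟨hv x, ⟨Nat.le_add_right _ _, hw x⟩, ?_⟩
    simp only [Nat.add_sub_cancel_left]
    rw [a1, a2, a3, a4]
  have h1 := card_le_card hsub
  rw [card_image_of_injective _ hinj, card_univ, Fintype.card_prod, Fintype.card_prod,
    Fintype.card_fin, Fintype.card_fin] at h1
  calc s ^ 4 = s * (s ^ 2 * s) := by ring
    _ ≤ _ := h1

/-- the numbers -/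
theorem numbers (j k : ℕ) (h : (2 ^ j) ^ 4 ≤ 2 ^ k * (2 ^ (3 * j + 2) * (3 * j + 2 + k).choose k)) :
    (3 * (j : ℝ) + 5) * Real.log 2 ≤ 16 * (k + 1) := by
  have hch : ((3 * j + 2 + k).choose k : ℝ) ≤ (17 / 16) ^ (3 * j + 2 + k) * 16 ^ k := by
    have h1 : (1 / 16 : ℝ) ^ k * ((3 * j + 2 + k).choose k : ℝ) ≤ (1 / 16 + 1) ^ (3 * j + 2 + k) := by
      rw [add_pow]
      have h2 := Finset.single_le_sum
        (f := fun m => (1 / 16 : ℝ) ^ m * 1 ^ (3 * j + 2 + k - m) * ((3 * j + 2 + k).choose m : ℝ))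
        (s := range (3 * j + 2 + k + 1)) (fun i _ => by positivity)
        (mem_range.2 (by omega : k < 3 * j + 2 + k + 1))
      simpa using h2
    have h2 : (1 / 16 : ℝ) ^ k * 16 ^ k = 1 := by
      rw [← mul_pow]
      norm_num
    calc ((3 * j + 2 + k).choose k : ℝ) =
          ((1 / 16 : ℝ) ^ k * ((3 * j + 2 + k).choose k : ℝ)) * 16 ^ k := by
          rw [mul_comm ((1 / 16 : ℝ) ^ k), mul_assoc, h2, mul_one]
      _ ≤ (1 / 16 + 1) ^ (3 * j + 2 + k) * 16 ^ k := mul_le_mul_of_nonneg_right h1 (by positivity)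
      _ = (17 / 16) ^ (3 * j + 2 + k) * 16 ^ k := by norm_num
  have h1 : (2 : ℝ) ^ (4 * j) ≤ 2 ^ (k + (3 * j + 2) + 4 * k) * (17 / 16) ^ (3 * j + 2 + k) := by
    have h2 : ((2 : ℝ) ^ j) ^ 4 ≤ 2 ^ k * (2 ^ (3 * j + 2) * ((3 * j + 2 + k).choose k : ℝ)) := by
      exact_mod_cast h
    calc (2 : ℝ) ^ (4 * j) = (2 ^ j) ^ 4 := by rw [← pow_mul, mul_comm]
      _ ≤ 2 ^ k * (2 ^ (3 * j + 2) * ((3 * j + 2 + k).choose k : ℝ)) := h2
      _ ≤ 2 ^ k * (2 ^ (3 * j + 2) * ((17 / 16) ^ (3 * j + 2 + k) * 16 ^ k)) := by gcongr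
      _ = 2 ^ (k + (3 * j + 2) + 4 * k) * (17 / 16) ^ (3 * j + 2 + k) := by
          have h3 : (16 : ℝ) ^ k = 2 ^ (4 * k) := by
            rw [pow_mul]
            norm_num
          rw [h3, pow_add 2 (k + (3 * j + 2)), pow_add 2 k]
          ring
  have h2 := Real.log_le_log (by positivity) h1
  rw [Real.log_mul (by positivity) (by positivity), Real.log_pow, Real.log_pow, Real.log_pow] at h2
  have h3 : Real.log (17 / 16) ≤ 1 / 16 := by
    have := Real.log_le_sub_one_of_pos (by norm_num : (0 : ℝ) < 17 / 16)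
    linarith
  have h4 : ((3 * j + 2 + k : ℕ) : ℝ) * Real.log (17 / 16) ≤ ((3 * j + 2 + k : ℕ) : ℝ) * (1 / 16) :=
    mul_le_mul_of_nonneg_left h3 (Nat.cast_nonneg _)
  have l1 := Real.log_two_gt_d9
  have l2 := Real.log_two_lt_d9
  set l := Real.log 2 with hl
  push_cast at h2 h4
  have hj : (0 : ℝ) ≤ j := Nat.cast_nonneg _
  have hk : (0 : ℝ) ≤ k := Nat.cast_nonneg _
  -- `j (l - 3/16) ≤ k (5 l + 1/16) + 2 l + 1/8`
  have h5 : (j : ℝ) * l ≤ (5 * k + 2) * l + (3 * j + 2 + k) / 16 := by nlinarith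
  have h6 : (j : ℝ) * 0.6931471803 ≤ j * l := mul_le_mul_of_nonneg_left l1.le hj
  have h7 : (j : ℝ) * l ≤ j * 0.6931471808 := mul_le_mul_of_nonneg_left l2.le hj
  have h8 : (k : ℝ) * l ≤ k * 0.6931471808 := mul_le_mul_of_nonneg_left l2.le hk
  nlinarith

end Pool.Agent.Helper37.CB
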