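import Pool.Agent.Helper37.CB.Tok

/-!
MP_957450_co: labels with tokens, colours and order types, reduced to tokens and comparisons.
-/

set_option autoImplicit false

namespace Pool.Agent.Helper37.CB

open Finset

/-- the plain rule: tokens and `k` comparisons -/
def Plain {V : Type} (G : SimpleGraph V) (k l : ℕ) : Prop :=
  ∃ (T : Type) (S S' : V → Finset T) (Ω : T → Fin k → Type)
    (_ : ∀ τ i, LinearOrder (Ω τ i)) (f g : ∀ τ i, V → Ω τ i)
    (B : T → (Fin k → Prop) → Prop),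
    (∀ v, (S v).card ≤ l) ∧ (∀ v, (S' v).card ≤ l) ∧
    ∀ v w, v ≠ w → (G.Adj v w ↔ ∃ τ, τ ∈ S v ∧ τ ∈ S' w ∧ B τ fun i => f τ i v ≤ g τ i w)

/-- colours are tokens -/
theorem plain_of_colours {V : Type} (G : SimpleGraph V) (k l c : ℕ)
    (T : Type) (S S' : V → Finset T) (C C' : T → V → Fin c) (Ω : T → Fin k → Type)
    (hΩ : ∀ τ i, LinearOrder (Ω τ i)) (f g : ∀ τ i, V → Ω τ i)
    (B : T → Fin c → Fin c → (Fin k → Prop) → Prop)
    (hS : ∀ v, (S v).card ≤ l) (hS' : ∀ v, (S' v).card ≤ l)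
    (h : ∀ v w, v ≠ w → (G.Adj v w ↔
      ∃ τ, τ ∈ S v ∧ τ ∈ S' w ∧ B τ (C τ v) (C' τ w) fun i => f τ i v ≤ g τ i w)) :
    Plain G k (c * l) := by
  classical
  refine ⟨T × Fin c × Fin c,
    fun v => ((S v) ×ˢ (univ : Finset (Fin c))).image fun e => (e.1, C e.1 v, e.2),
    fun v => ((S' v) ×ˢ (univ : Finset (Fin c))).image fun e => (e.1, e.2, C' e.1 v),
    fun τ i => Ω τ.1 i, fun τ i => hΩ τ.1 i, fun τ i => f τ.1 i, fun τ i => g τ.1 i,
    fun τ => B τ.1 τ.2.1 τ.2.2, ?_, ?_, ?_⟩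
  · intro v
    refine card_image_le.trans ?_
    rw [card_product, card_univ, Fintype.card_fin, mul_comm]
    exact Nat.mul_le_mul_left _ (hS v)
  · intro v
    refine card_image_le.trans ?_
    rw [card_product, card_univ, Fintype.card_fin, mul_comm]
    exact Nat.mul_le_mul_left _ (hS' v)
  · intro v w hvw
    rw [h v w hvw]
    constructor
    · rintro ⟨τ, h1, h2, h3⟩
      refine ⟨(τ, C τ v, C' τ w), ?_, ?_, h3⟩
      · rw [mem_image]
        exact ⟨(τ, C' τ w), mem_product.2 ⟨h1, mem_univ _⟩, rfl⟩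
      · rw [mem_image]
        exact ⟨(τ, C τ v), mem_product.2 ⟨h2, mem_univ _⟩, rfl⟩
    · rintro ⟨⟨τ, a, a'⟩, h1, h2, h3⟩
      rw [mem_image] at h1 h2
      obtain ⟨⟨τ1, b1⟩, h11, h12⟩ := h1
      obtain ⟨⟨τ2, b2⟩, h21, h22⟩ := h2
      simp only [Prod.mk.injEq] at h12 h22
      obtain ⟨rfl, rfl, rfl⟩ := h12
      obtain ⟨rfl, -, rfl⟩ := h22
      exact ⟨_, (mem_product.1 h11).1, (mem_product.1 h21).1, h3⟩

/-- ranks of finitely many elements of a linear order -/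
theorem exists_nat_rank {Ω I : Type} [LinearOrder Ω] [Finite I] (z : I → Ω) :
    ∃ r : I → ℕ, ∀ a b, (z a ≤ z b ↔ r a ≤ r b) := by
  classical
  have := Fintype.ofFinite I
  refine ⟨fun a => (univ.filter fun b => z b < z a).card, fun a b => ?_⟩
  constructor
  · intro h
    apply card_le_card
    intro x hx
    simp only [mem_filter, mem_univ, true_and] at hx ⊢
    exact hx.trans_le h
  · intro h
    by_contra h1
    rw [not_le] at h1
    apply absurd h
    rw [not_le]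
    apply card_lt_card
    rw [ssubset_iff_of_subset]
    · exact ⟨b, by simpa using h1, by simp⟩
    · intro x hx
      simp only [mem_filter, mem_univ, true_and] at hx ⊢
      exact hx.trans h1

/-- the rank function of a tuple -/
theorem exists_fin_rank {I : Type} [Fintype I] (q : ℕ) (hq : Fintype.card I = q) (z : I → ℕ) :
    ∃ r : I → Fin q, ∀ a b, (z a ≤ z b ↔ r a ≤ r b) := by
  classical
  have hlt : ∀ a, (univ.filter fun b => z b < z a).card < q := by
    intro a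
    rw [← hq, ← card_univ]
    apply card_lt_card
    rw [ssubset_iff_of_subset (filter_subset _ _)]
    exact ⟨a, mem_univ _, by simp⟩
  refine ⟨fun a => ⟨_, hlt a⟩, fun a b => ?_⟩
  rw [Fin.mk_le_mk]
  constructor
  · intro h
    apply card_le_card
    intro x hx
    simp only [mem_filter, mem_univ, true_and] at hx ⊢
    exact hx.trans_le h
  · intro h
    by_contra h1
    rw [not_le] at h1
    apply absurd h
    rw [not_le]
    apply card_lt_card
    rw [ssubset_iff_of_subset]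
    · exact ⟨b, by simpa using h1, by simp⟩
    · intro x hx
      simp only [mem_filter, mem_univ, true_and] at hx ⊢
      exact hx.trans h1

open Classical in
/-- the upper threshold of the `i`-th element -/
noncomputable def upp {k : ℕ} (ρ : Fin k ⊕ Fin k → Fin (k + k)) (y : Fin k → ℕ) (i : Fin k) : ℕ∞ :=
  univ.inf fun j => (if ρ (.inl i) ≤ ρ (.inr j) then ((2 * y j + 1 : ℕ) : ℕ∞) else ⊤) ⊓
    (if ρ (.inr j) ≤ ρ (.inl i) then ⊤ else ((2 * y j : ℕ) : ℕ∞))

open Classical in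
/-- the lower threshold of the `i`-th element -/
noncomputable def low {k : ℕ} (ρ : Fin k ⊕ Fin k → Fin (k + k)) (y : Fin k → ℕ) (i : Fin k) : ℕ∞ :=
  univ.sup fun j => (if ρ (.inl i) ≤ ρ (.inr j) then ⊥ else ((2 * y j + 1 : ℕ) : ℕ∞)) ⊔
    (if ρ (.inr j) ≤ ρ (.inl i) then ((2 * y j : ℕ) : ℕ∞) else ⊥)

theorem le_upp {k : ℕ} (ρ : Fin k ⊕ Fin k → Fin (k + k)) (y : Fin k → ℕ) (i : Fin k) (x : ℕ) :
    ((2 * x + 1 : ℕ) : ℕ∞) ≤ upp ρ y i ↔ ∀ j, (ρ (.inl i) ≤ ρ (.inr j) → x ≤ y j) ∧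
      (¬ ρ (.inr j) ≤ ρ (.inl i) → x < y j) := by
  unfold upp
  rw [Finset.le_inf_iff]
  constructor
  · intro h j
    have h1 := h j (mem_univ _)
    rw [le_inf_iff] at h1
    obtain ⟨h2, h3⟩ := h1
    constructor
    · intro h4
      rw [if_pos h4, Nat.cast_le] at h2
      omega
    · intro h4
      rw [if_neg h4, Nat.cast_le] at h3
      omega
  · intro h j _
    obtain ⟨h2, h3⟩ := h j
    rw [le_inf_iff]
    constructor
    · split_ifs with h4
      · rw [Nat.cast_le]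
        have := h2 h4
        omega
      · exact le_top
    · split_ifs with h4
      · exact le_top
      · rw [Nat.cast_le]
        have := h3 h4
        omega

theorem low_lt {k : ℕ} (ρ : Fin k ⊕ Fin k → Fin (k + k)) (y : Fin k → ℕ) (i : Fin k) (x : ℕ) :
    ¬ ((2 * x + 1 : ℕ) : ℕ∞) ≤ low ρ y i ↔ ∀ j, (¬ ρ (.inl i) ≤ ρ (.inr j) → y j < x) ∧
      (ρ (.inr j) ≤ ρ (.inl i) → y j ≤ x) := by
  unfold low
  have h0 : (⊥ : ℕ∞) < ((2 * x + 1 : ℕ) : ℕ∞) := by
    rw [bot_lt_iff_ne_bot]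
    intro h
    have h1 : ((2 * x + 1 : ℕ) : ℕ∞) = ((0 : ℕ) : ℕ∞) := h
    rw [Nat.cast_inj] at h1
    omega
  rw [not_le, Finset.sup_lt_iff h0]
  constructor
  · intro h j
    have h1 := h j (mem_univ _)
    rw [sup_lt_iff] at h1
    obtain ⟨h2, h3⟩ := h1
    constructor
    · intro h4
      rw [if_neg h4, Nat.cast_lt] at h2
      omega
    · intro h4
      rw [if_pos h4, Nat.cast_lt] at h3
      omega
  · intro h j _
    obtain ⟨h2, h3⟩ := h j
    rw [sup_lt_iff]
    constructor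
    · split_ifs with h4
      · exact h0
      · rw [Nat.cast_lt]
        have := h2 h4
        omega
    · split_ifs with h4
      · rw [Nat.cast_lt]
        have := h3 h4
        omega
      · exact h0

/-- the two thresholds decide the comparisons between the two tuples -/
theorem cross {k : ℕ} (ρ : Fin k ⊕ Fin k → Fin (k + k)) (x y : Fin k → ℕ) :
    (∀ i, ((2 * x i + 1 : ℕ) : ℕ∞) ≤ upp ρ y i ∧ ¬ ((2 * x i + 1 : ℕ) : ℕ∞) ≤ low ρ y i) ↔
      ∀ i j, (x i ≤ y j ↔ ρ (.inl i) ≤ ρ (.inr j)) ∧ (y j ≤ x i ↔ ρ (.inr j) ≤ ρ (.inl i)) := by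
  constructor
  · intro h i j
    obtain ⟨h1, h2⟩ := h i
    rw [le_upp] at h1
    rw [low_lt] at h2
    obtain ⟨a1, a2⟩ := h1 j
    obtain ⟨b1, b2⟩ := h2 j
    refine ⟨⟨fun h3 => ?_, a1⟩, ⟨fun h3 => ?_, b2⟩⟩
    · by_contra h4
      exact absurd (b1 h4) (not_lt.2 h3)
    · by_contra h4
      exact absurd (a2 h4) (not_lt.2 h3)
  · intro h i
    rw [le_upp, low_lt]
    refine ⟨fun j => ⟨(h i j).1.2, fun h1 => ?_⟩, fun j => ⟨fun h1 => ?_, (h i j).2.2⟩⟩
    · rw [← (h i j).2] at h1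
      exact not_le.1 h1
    · rw [← (h i j).1] at h1
      exact not_le.1 h1

/-- order types are tokens -/
theorem plain_of_orders {V : Type} [Finite V] (G : SimpleGraph V) (k l c : ℕ)
    (T : Type) (S S' : V → Finset T) (C C' : T → V → Fin c) (Ω : T → Type)
    (hΩ : ∀ τ, LinearOrder (Ω τ)) (X Y : ∀ τ, V → Fin k → Ω τ)
    (B : T → Fin c → Fin c → (Fin k ⊕ Fin k → Fin k ⊕ Fin k → Prop) → Prop)
    (hS : ∀ v, (S v).card ≤ l) (hS' : ∀ v, (S' v).card ≤ l)
    (h : ∀ v w, v ≠ w → (G.Adj v w ↔ ∃ τ, τ ∈ S v ∧ τ ∈ S' w ∧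
      B τ (C τ v) (C' τ w) fun a b =>
        Sum.elim (X τ v) (Y τ w) a ≤ Sum.elim (X τ v) (Y τ w) b)) :
    Plain G (k + k) (c * (l * (k + k) ^ (k + k))) := by
  classical
  -- ranks
  have hr : ∀ τ, ∃ r : (V × Fin k) ⊕ (V × Fin k) → ℕ, ∀ a b,
      (Sum.elim (fun e : V × Fin k => X τ e.1 e.2) (fun e => Y τ e.1 e.2) a ≤
        Sum.elim (fun e : V × Fin k => X τ e.1 e.2) (fun e => Y τ e.1 e.2) b ↔ r a ≤ r b) := by
    intro τ
    let _ := hΩ τ
    exact exists_nat_rank _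
  choose r hr using hr
  set x : T → V → Fin k → ℕ := fun τ v i => r τ (.inl (v, i)) with hx
  set y : T → V → Fin k → ℕ := fun τ v i => r τ (.inr (v, i)) with hy
  have hxy : ∀ τ v w (a b : Fin k ⊕ Fin k),
      (@LE.le _ (hΩ τ).toLE (Sum.elim (X τ v) (Y τ w) a) (Sum.elim (X τ v) (Y τ w) b) ↔
        Sum.elim (x τ v) (y τ w) a ≤ Sum.elim (x τ v) (y τ w) b) := by
    intro τ v w a b
    rcases a with i | i <;> rcases b with j | j
    · exact hr τ (.inl (v, i)) (.inl (v, j))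
    · exact hr τ (.inl (v, i)) (.inr (w, j))
    · exact hr τ (.inr (w, i)) (.inl (v, j))
    · exact hr τ (.inr (w, i)) (.inr (w, j))
  have hcardρ : (univ : Finset (Fin k ⊕ Fin k → Fin (k + k))).card = (k + k) ^ (k + k) := by
    rw [card_univ, Fintype.card_fun, Fintype.card_sum, Fintype.card_fin, Fintype.card_fin]
  refine plain_of_colours G (k + k) (l * (k + k) ^ (k + k)) c
    (T × (Fin k ⊕ Fin k → Fin (k + k)))
    (fun v => ((S v) ×ˢ univ).filter fun e =>
      ∀ i j, (x e.1 v i ≤ x e.1 v j ↔ e.2 (.inl i) ≤ e.2 (.inl j)))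
    (fun v => ((S' v) ×ˢ univ).filter fun e =>
      ∀ i j, (y e.1 v i ≤ y e.1 v j ↔ e.2 (.inr i) ≤ e.2 (.inr j)))
    (fun τ => C τ.1) (fun τ => C' τ.1) (fun _ _ => ℕ∞) (fun _ _ => inferInstance)
    (fun τ t v => Sum.elim (fun i => ((2 * x τ.1 v i + 1 : ℕ) : ℕ∞))
      (fun i => ((2 * x τ.1 v i + 1 : ℕ) : ℕ∞)) (finSumFinEquiv.symm t))
    (fun τ t v => Sum.elim (fun i => upp τ.2 (y τ.1 v) i)
      (fun i => low τ.2 (y τ.1 v) i) (finSumFinEquiv.symm t))
    (fun τ a a' Z => B τ.1 a a' (fun u u' => τ.2 u ≤ τ.2 u') ∧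
      ∀ i : Fin k, Z (finSumFinEquiv (.inl i)) ∧ ¬ Z (finSumFinEquiv (.inr i))) ?_ ?_ ?_
  · intro v
    refine (card_filter_le _ _).trans ?_
    rw [card_product, hcardρ]
    exact Nat.mul_le_mul_right _ (hS v)
  · intro v
    refine (card_filter_le _ _).trans ?_
    rw [card_product, hcardρ]
    exact Nat.mul_le_mul_right _ (hS' v)
  · intro v w hvw
    rw [h v w hvw]
    constructor
    · rintro ⟨τ, h1, h2, h3⟩
      obtain ⟨ρ, hρ⟩ := exists_fin_rank (I := Fin k ⊕ Fin k) (k + k) (by simp)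
        (Sum.elim (x τ v) (y τ w))
      have hM : (fun a b => @LE.le _ (hΩ τ).toLE (Sum.elim (X τ v) (Y τ w) a)
          (Sum.elim (X τ v) (Y τ w) b)) = fun a b => ρ a ≤ ρ b := by
        funext a b
        exact propext ((hxy τ v w a b).trans (hρ a b))
      refine ⟨(τ, ρ), ?_, ?_, ?_, ?_⟩
      · rw [mem_filter, mem_product]
        exact ⟨⟨h1, mem_univ _⟩, fun i j => hρ (.inl i) (.inl j)⟩
      · rw [mem_filter, mem_product]
        exact ⟨⟨h2, mem_univ _⟩, fun i j => hρ (.inr i) (.inr j)⟩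
      · rw [hM] at h3
        exact h3
      · simp only [Equiv.symm_apply_apply, Sum.elim_inl, Sum.elim_inr]
        exact (cross ρ (x τ v) (y τ w)).2 fun i j => ⟨hρ (.inl i) (.inr j), hρ (.inr j) (.inl i)⟩
    · rintro ⟨⟨τ, ρ⟩, h1, h2, h3, h4⟩
      rw [mem_filter, mem_product] at h1 h2
      simp only [Equiv.symm_apply_apply, Sum.elim_inl, Sum.elim_inr] at h4
      have h5 := (cross ρ (x τ v) (y τ w)).1 h4
      refine ⟨τ, h1.1.1, h2.1.1, ?_⟩
      have hM : (fun a b => @LE.le _ (hΩ τ).toLE (Sum.elim (X τ v) (Y τ w) a)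
          (Sum.elim (X τ v) (Y τ w) b)) = fun a b => ρ a ≤ ρ b := by
        funext a b
        refine propext ((hxy τ v w a b).trans ?_)
        rcases a with i | i <;> rcases b with j | j
        · exact h1.2 i j
        · exact (h5 i j).1
        · exact (h5 j i).2
        · exact h2.2 i j
      rw [hM]
      exact h3

end Pool.Agent.Helper37.CB
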