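import Pool.Agent.Helper37.CB.Graph

/-!
MP_957450_co: tokens with comparisons.
-/

set_option autoImplicit false

namespace Pool.Agent.Helper37.CB

open Finset

open Classical in
/-- `few`, linear in the number of vertices -/
theorem few' {V : Type} [Fintype V] (k m : ℕ) (P L : Finset V) (hPL : Disjoint P L)
    (hc : P.card + L.card ≤ 2 ^ m)
    (Ω : Fin k → Type) [∀ i, LinearOrder (Ω i)] (f g : ∀ i, V → Ω i) (B : (Fin k → Prop) → Prop)
    (hK : NoK22 ((P ×ˢ L).filter fun e => B fun i => f i e.1 ≤ g i e.2)) :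
    ((P ×ˢ L).filter fun e => B fun i => f i e.1 ≤ g i e.2).card ≤
      (P.card + L.card) * (2 * 2 ^ k * (m + k).choose k) := by
  rcases Nat.eq_zero_or_pos (P.card + L.card) with h0 | h0
  · have h1 : P = ∅ := card_eq_zero.1 (by omega)
    subst h1
    simp
  · set N := P.card + L.card with hN
    have h1 : N ≤ 2 ^ Nat.clog 2 N := Nat.le_pow_clog (by norm_num) _
    have h2 : 2 ^ Nat.clog 2 N ≤ 2 * N := by
      rcases Nat.lt_or_ge 1 N with h3 | h3
      · have h4 := Nat.pow_pred_clog_lt_self (b := 2) (by norm_num) h3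
        have h5 : 0 < Nat.clog 2 N := Nat.clog_pos (by norm_num) h3
        have h6 : 2 ^ Nat.clog 2 N = 2 * 2 ^ (Nat.clog 2 N).pred := by
          rw [← pow_succ', Nat.pred_eq_sub_one, Nat.sub_add_cancel h5]
        omega
      · have h4 : N = 1 := by omega
        rw [h4]
        simp
    have h3 : Nat.clog 2 N ≤ m := Nat.clog_le_of_le_pow hc
    have h4 := few k (Nat.clog 2 N) P L hPL h1 Ω f g B hK
    calc _ ≤ 2 ^ k * (2 ^ Nat.clog 2 N * (Nat.clog 2 N + k).choose k) := h4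
      _ ≤ 2 ^ k * ((2 * N) * (m + k).choose k) := by
          gcongr
      _ = N * (2 * 2 ^ k * (m + k).choose k) := by ring

open Classical in
/-- rules with tokens -/
theorem tok {V : Type} [Fintype V] (k m l : ℕ) (P L : Finset V) (hPL : Disjoint P L)
    (hc : P.card + L.card ≤ 2 ^ m) (R : Finset (V × V)) (hRs : R ⊆ P ×ˢ L) (hK : NoK22 R)
    (T : Type) (S S' : V → Finset T) (hS : ∀ v, (S v).card ≤ l) (hS' : ∀ v, (S' v).card ≤ l)
    (Ω : T → Fin k → Type) [∀ τ i, LinearOrder (Ω τ i)] (f g : ∀ τ i, V → Ω τ i)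
    (B : T → (Fin k → Prop) → Prop)
    (hR : ∀ v ∈ P, ∀ w ∈ L, ((v, w) ∈ R ↔ ∃ τ, τ ∈ S v ∧ τ ∈ S' w ∧ B τ fun i => f τ i v ≤ g τ i w)) :
    R.card ≤ l * (P.card + L.card) * (2 * 2 ^ k * (m + k).choose k) := by
  set U : Finset T := P.biUnion S with hU
  set PT : T → Finset V := fun τ => P.filter fun v => τ ∈ S v with hPT
  set LT : T → Finset V := fun τ => L.filter fun w => τ ∈ S' w with hLT
  set Q : T → Finset (V × V) := fun τ =>
    (PT τ ×ˢ LT τ).filter fun e => B τ fun i => f τ i e.1 ≤ g τ i e.2 with hQ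
  have hQR : ∀ τ, Q τ ⊆ R := by
    rintro τ ⟨v, w⟩ h
    simp only [hQ, hPT, hLT, mem_filter, mem_product] at h
    obtain ⟨⟨⟨hv, hvS⟩, ⟨hw, hwS⟩⟩, hB⟩ := h
    exact (hR v hv w hw).2 ⟨τ, hvS, hwS, hB⟩
  have hsub : R ⊆ U.biUnion Q := by
    rintro ⟨v, w⟩ h
    have h1 := mem_product.1 (hRs h)
    obtain ⟨τ, h2, h3, h4⟩ := (hR v h1.1 w h1.2).1 h
    rw [mem_biUnion]
    refine ⟨τ, mem_biUnion.2 ⟨v, h1.1, h2⟩, ?_⟩
    simp only [hQ, hPT, hLT, mem_filter, mem_product]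
    exact ⟨⟨⟨h1.1, h2⟩, ⟨h1.2, h3⟩⟩, h4⟩
  have hone : ∀ τ, (Q τ).card ≤ ((PT τ).card + (LT τ).card) * (2 * 2 ^ k * (m + k).choose k) := by
    intro τ
    apply few' k m (PT τ) (LT τ) (hPL.mono (filter_subset _ _) (filter_subset _ _))
    · exact (Nat.add_le_add (card_filter_le _ _) (card_filter_le _ _)).trans hc
    · exact hK.mono (hQR τ)
  have hcount : ∀ (A : Finset V) (Z : V → Finset T), (∀ v, (Z v).card ≤ l) →
      ∑ τ ∈ U, (A.filter fun v => τ ∈ Z v).card ≤ l * A.card := by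
    intro A Z hZ
    calc ∑ τ ∈ U, (A.filter fun v => τ ∈ Z v).card
        = ∑ v ∈ A, (U.filter fun τ => τ ∈ Z v).card := by
          simp only [card_filter]
          rw [sum_comm]
      _ ≤ ∑ _v ∈ A, l := by
          refine sum_le_sum fun v _ => (card_le_card ?_).trans (hZ v)
          intro τ hτ
          exact (mem_filter.1 hτ).2
      _ = l * A.card := by rw [sum_const, smul_eq_mul, mul_comm]
  calc R.card ≤ (U.biUnion Q).card := card_le_card hsub
    _ ≤ ∑ τ ∈ U, (Q τ).card := card_biUnion_le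
    _ ≤ ∑ τ ∈ U, ((PT τ).card + (LT τ).card) * (2 * 2 ^ k * (m + k).choose k) :=
        sum_le_sum fun τ _ => hone τ
    _ = (∑ τ ∈ U, (PT τ).card + ∑ τ ∈ U, (LT τ).card) * (2 * 2 ^ k * (m + k).choose k) := by
        rw [← sum_mul, sum_add_distrib]
    _ ≤ (l * P.card + l * L.card) * (2 * 2 ^ k * (m + k).choose k) :=
        Nat.mul_le_mul_right _ (Nat.add_le_add (hcount P S hS) (hcount L S' hS'))
    _ = l * (P.card + L.card) * (2 * 2 ^ k * (m + k).choose k) := by ring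

/-- the numbers, with tokens -/
theorem numbers' (j k l : ℕ) (hl : 1 ≤ l)
    (h : 2 ^ j ≤ 6 * 2 ^ k * l * (3 * j + 2 + k).choose k) :
    (3 * (j : ℝ) + 5) * Real.log 2 ≤ 16 * (k + 1) + 5 * Real.log l := by
  have hch : ((3 * j + 2 + k).choose k : ℝ) ≤ (17 / 16) ^ (3 * j + 2 + k) * 16 ^ k := by
    have h1 : (1 / 16 : ℝ) ^ k * ((3 * j + 2 + k).choose k : ℝ) ≤ (1 / 16 + 1) ^ (3 * j + 2 + k) := by
      rw [add_pow]
      have h2 := Finset.single_le_sum
        (f := fun m => (1 / 16 : ℝ) ^ m * 1 ^ (3 * j + 2 + k - m) * ((3 * j + 2 + k).choose m : ℝ))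
        (s := range (3 * j + 2 + k + 1)) (fun i _ => by positivity)
        (mem_range.2 (by omega : k < 3 * j + 2 + k + 1))
      simpa using h2
    have h2 : (1 / 16 : ℝ) ^ k * 16 ^ k = 1 := by
      rw [← mul_pow]
      norm_num
    calc ((3 * j + 2 + k).choose k : ℝ) =
          ((1 / 16 : ℝ) ^ k * ((3 * j + 2 + k).choose k : ℝ)) * 16 ^ k := by
          rw [mul_comm ((1 / 16 : ℝ) ^ k), mul_assoc, h2, mul_one]
      _ ≤ (1 / 16 + 1) ^ (3 * j + 2 + k) * 16 ^ k := mul_le_mul_of_nonneg_right h1 (by positivity)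
      _ = (17 / 16) ^ (3 * j + 2 + k) * 16 ^ k := by norm_num
  have hl1 : (1 : ℝ) ≤ l := by exact_mod_cast hl
  have hl0 : (0 : ℝ) < l := by linarith
  have h1 : (2 : ℝ) ^ j ≤ 6 * (l : ℝ) * (2 ^ (5 * k) * (17 / 16) ^ (3 * j + 2 + k)) := by
    have h2 : (2 : ℝ) ^ j ≤ 6 * 2 ^ k * l * ((3 * j + 2 + k).choose k : ℝ) := by
      exact_mod_cast h
    calc (2 : ℝ) ^ j ≤ 6 * 2 ^ k * l * ((3 * j + 2 + k).choose k : ℝ) := h2
      _ ≤ 6 * 2 ^ k * l * ((17 / 16) ^ (3 * j + 2 + k) * 16 ^ k) := by gcongr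
      _ = 6 * (l : ℝ) * (2 ^ (5 * k) * (17 / 16) ^ (3 * j + 2 + k)) := by
          have h3 : (16 : ℝ) ^ k = 2 ^ (4 * k) := by
            rw [pow_mul]
            norm_num
          rw [h3, show 5 * k = k + 4 * k by ring, pow_add]
          ring
  have h2 := Real.log_le_log (by positivity) h1
  rw [Real.log_mul (by positivity) (by positivity), Real.log_mul (by positivity) (by positivity),
    Real.log_mul (by positivity) (by positivity), Real.log_pow, Real.log_pow, Real.log_pow] at h2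
  have h3 : Real.log (17 / 16) ≤ 1 / 16 := by
    have := Real.log_le_sub_one_of_pos (by norm_num : (0 : ℝ) < 17 / 16)
    linarith
  have h4 : ((3 * j + 2 + k : ℕ) : ℝ) * Real.log (17 / 16) ≤ ((3 * j + 2 + k : ℕ) : ℝ) * (1 / 16) :=
    mul_le_mul_of_nonneg_left h3 (Nat.cast_nonneg _)
  have l1 := Real.log_two_gt_d9
  have l2 := Real.log_two_lt_d9
  have l6 : Real.log 6 ≤ 3 * Real.log 2 := by
    rw [show (3 : ℝ) * Real.log 2 = Real.log (2 ^ 3) by rw [Real.log_pow]; push_cast; ring]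
    exact Real.log_le_log (by norm_num) (by norm_num)
  have ll : 0 ≤ Real.log (l : ℝ) := Real.log_nonneg hl1
  set a := Real.log 2 with ha
  set b := Real.log (l : ℝ) with hb
  push_cast at h2 h4
  have hj : (0 : ℝ) ≤ j := Nat.cast_nonneg _
  have hk : (0 : ℝ) ≤ k := Nat.cast_nonneg _
  -- `j (a - 3/16) ≤ 3 a + b + k (5 a + 1/16) + 1/8`
  have h5 : (j : ℝ) * a ≤ 3 * a + b + 5 * k * a + (3 * j + 2 + k) / 16 := by nlinarith
  have h6 : (j : ℝ) * 0.6931471803 ≤ j * a := mul_le_mul_of_nonneg_left l1.le hj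
  have h7 : (j : ℝ) * a ≤ j * 0.6931471808 := mul_le_mul_of_nonneg_left l2.le hj
  have h8 : (k : ℝ) * a ≤ k * 0.6931471808 := mul_le_mul_of_nonneg_left l2.le hk
  nlinarith

end Pool.Agent.Helper37.CB
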